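import Pool.Agent.H211.HY.Stm3
import Pool.Graph.R_seed8.H790R3.RB.TINJL
import Pool.Graph.R_seed8.H790R3.RB.TSP
import Pool.Graph.R_seed8.H790R3.RB.TWR
import Pool.Graph.R_seed8.Helper114.MontelSol

/-!
# HY211 NINJ (for helper211): critical directions are not points of local injectivity
-/

set_option autoImplicit false

open Topology Filter Metric Set MeasureTheory
open scoped OnePoint

namespace Pool.Agent.H225.HY211

open Pool.Agent.H790R3.RB Pool.Agent.H211.HY

lemma cr_lin_strict {d : ℕ} (x : CV d) (p e w : ℂ × ℂ) :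
    HasStrictDerivAt (fun t : ℂ => cr (hF x (p + t • e)) w) (cr (fderiv ℂ (hF x) p e) w) 0 := by
  have h1 : HasStrictFDerivAt (fun v : ℂ × ℂ => cr v w)
      (w.2 • ContinuousLinearMap.fst ℂ ℂ ℂ - w.1 • ContinuousLinearMap.snd ℂ ℂ ℂ)
      (hF x (p + (0 : ℂ) • e)) := by
    have h2 := (w.2 • ContinuousLinearMap.fst ℂ ℂ ℂ -
      w.1 • ContinuousLinearMap.snd ℂ ℂ ℂ).hasStrictFDerivAt (x := hF x (p + (0 : ℂ) • e))
    refine h2.congr_of_eventuallyEq (Eventually.of_forall fun v => ?_)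
    simp only [cr, sub_apply, smul_apply,
      ContinuousLinearMap.coe_fst', ContinuousLinearMap.coe_snd', smul_eq_mul]
    ring
  have h2 := h1.comp_hasStrictDerivAt (0 : ℂ) (INJL.along x p e)
  have h3 : (w.2 • ContinuousLinearMap.fst ℂ ℂ ℂ - w.1 • ContinuousLinearMap.snd ℂ ℂ ℂ)
      (fderiv ℂ (hF x) p e) = cr (fderiv ℂ (hF x) p e) w := by
    simp only [cr, sub_apply, smul_apply,
      ContinuousLinearMap.coe_fst', ContinuousLinearMap.coe_snd', smul_eq_mul]
    ring
  rw [h3] at h2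
  exact h2

lemma cr_diff {d : ℕ} (x : CV d) (p e w : ℂ × ℂ) :
    Differentiable ℂ (fun t : ℂ => cr (hF x (p + t • e)) w) := by
  have h1 : Differentiable ℂ (hF x) := (INJL.hF_cd x).differentiable (by norm_num)
  have h2 : Differentiable ℂ (fun t : ℂ => p + t • e) := by fun_prop
  have h3 := h1.comp h2
  have h4 : Differentiable ℂ (fun t : ℂ => (hF x (p + t • e)).1) := h3.fst
  have h5 : Differentiable ℂ (fun t : ℂ => (hF x (p + t • e)).2) := h3.snd
  unfold cr
  exact (h4.mul_const _).sub (h5.mul_const _)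

theorem t_NINJ : S_NINJ := by
  intro d x p hd hND hp hw
  rintro ⟨U, hU, hinj⟩
  obtain ⟨-, hsp, hprcr, -, -⟩ := SP d x (by omega) hND
  obtain ⟨-, -, hjac⟩ := WR d x hd
  obtain ⟨e, he, -⟩ := INJL.dir hp
  obtain ⟨P, hP⟩ : ∃ P, P = hF x p := ⟨_, rfl⟩
  have hP0 : P ≠ 0 := fun h => hp (hND p (hP ▸ h))
  obtain ⟨f, hf, -⟩ := INJL.dir hP0
  obtain ⟨D, hD⟩ : ∃ D, D = fderiv ℂ (hF x) p e := ⟨_, rfl⟩
  have hd0 : (d : ℂ) ≠ 0 := by
    have : d ≠ 0 := by omega
    exact_mod_cast this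
  have hcr : cr D P = 0 := by
    have h1 := hjac p p e
    rw [INJL.euler, cr_smul_left, ← hP, ← hD, hw, zero_mul] at h1
    have h2 : cr P D = 0 := (mul_eq_zero.1 h1).resolve_left hd0
    have h3 : cr D P = -cr P D := by unfold cr; ring
    rw [h3, h2, neg_zero]
  have hq0 : ∀ t : ℂ, p + t • e ≠ 0 := by
    intro t h
    have h1 : cr (p + t • e) e = cr p e := by
      simp only [cr, Prod.fst_add, Prod.snd_add, Prod.smul_fst, Prod.smul_snd, smul_eq_mul]
      ring
    rw [h] at h1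
    apply he
    rw [← h1]
    simp [cr]
  have hF0 : ∀ t : ℂ, hF x (p + t • e) ≠ 0 := fun t h => hq0 t (hND _ h)
  have e0 : p + (0 : ℂ) • e = p := by simp
  -- the neighbourhoods
  have hc1 : ∀ᶠ t : ℂ in 𝓝 0, pr (p + t • e) ∈ U := by
    have h1 : ContinuousAt (fun t : ℂ => pr (p + t • e)) 0 :=
      ContinuousAt.comp (f := fun t : ℂ => p + t • e) (g := pr) (x := (0 : ℂ))
        (SP.continuousAt_pr (hq0 0)) (by fun_prop)
    refine h1 ?_
    show U ∈ 𝓝 (pr (p + (0 : ℂ) • e))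
    rw [e0]
    exact hU
  have hc2 : ∀ᶠ t : ℂ in 𝓝 0, cr (hF x (p + t • e)) f ≠ 0 := by
    refine (cr_diff x p e f).continuous.continuousAt.eventually_ne ?_
    rw [e0, ← hP]
    exact hf
  obtain ⟨δ, hδ, hball⟩ := Metric.eventually_nhds_iff_ball.1 (hc1.and hc2)
  obtain ⟨φ, hφ⟩ : ∃ φ : ℂ → ℂ, φ = fun t : ℂ => cr (hF x (p + t • e)) P /
    cr (hF x (p + t • e)) f := ⟨_, rfl⟩
  have hφd : DifferentiableOn ℂ φ (ball 0 δ) := by
    intro t ht
    rw [hφ]
    exact ((cr_diff x p e P t).div (cr_diff x p e f t) (hball t ht).2).differentiableWithinAt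
  have hφi : InjOn φ (ball 0 δ) := by
    intro t ht t' ht' htt
    rw [hφ] at htt
    simp only at htt
    rw [div_eq_div_iff (hball t ht).2 (hball t' ht').2] at htt
    have h1 : cr (hF x (p + t • e)) (hF x (p + t' • e)) = 0 := by
      have h2 : cr (hF x (p + t • e)) (hF x (p + t' • e)) * cr P f = 0 := by
        have h3 : cr (hF x (p + t • e)) (hF x (p + t' • e)) * cr P f =
            cr (hF x (p + t • e)) P * cr (hF x (p + t' • e)) f -
              cr (hF x (p + t' • e)) P * cr (hF x (p + t • e)) f := by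
          unfold cr
          ring
        rw [h3, htt, sub_self]
      exact (mul_eq_zero.1 h2).resolve_right hf
    have h2 : sp x (pr (p + t • e)) = sp x (pr (p + t' • e)) := by
      have h3 := hsp (p + t • e) (hq0 t) 1
      have h4 := hsp (p + t' • e) (hq0 t') 1
      simp only [Function.iterate_one] at h3 h4
      rw [h3, h4]
      exact (hprcr _ _ (hF0 t) (hF0 t')).2 h1
    have h3 := hinj (hball t ht).1 (hball t' ht').1 h2
    have h4 : cr (p + t • e) (p + t' • e) = 0 := (hprcr _ _ (hq0 t) (hq0 t')).1 h3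
    have h5 : cr (p + t • e) (p + t' • e) = (t' - t) * cr p e := by
      simp only [cr, Prod.fst_add, Prod.snd_add, Prod.smul_fst, Prod.smul_snd, smul_eq_mul]
      ring
    rw [h5] at h4
    have h6 := (mul_eq_zero.1 h4).resolve_right he
    linear_combination -h6
  have hne := Pool.Agent.Helper114.Montel.deriv_ne_zero_of_injOn isOpen_ball φ hφd hφi
    (mem_ball_self hδ)
  apply hne
  have hden : cr (hF x (p + (0 : ℂ) • e)) f ≠ 0 := by rw [e0, ← hP]; exact hf
  have h1 := ((cr_lin_strict x p e P).div (cr_lin_strict x p e f) hden).hasDerivAt.deriv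
  have h2 : φ = (fun t : ℂ => cr (hF x (p + t • e)) P) / fun t : ℂ => cr (hF x (p + t • e)) f := by
    rw [hφ]
    rfl
  rw [h2, h1, ← hD, hcr, e0, ← hP, cr_self]
  ring

end Pool.Agent.H225.HY211
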